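import Mathlib
import Pool.Agent.H.MP_a4feb0_gt.C
import Pool.Agent.Lib.helper23.Comb

set_option autoImplicit false

namespace Pool.Agent.Results.MP_a4feb0_gt.Counter

open Set Filter Topology Function Pool.Agent.H.MP_a4feb0_gt A B

def Minimal (G : Type) [Group G] [τ : TopologicalSpace G] : Prop :=
  ∀ σ : TopologicalSpace G, @IsTopologicalGroup G σ _ → @T2Space G σ → τ ≤ σ → σ = τ

def TotallyMinimal (G : Type) [Group G] [TopologicalSpace G] : Prop :=
  ∀ (N : Subgroup G) [N.Normal], IsClosed (N : Set G) → Minimal (G ⧸ N)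

def CT (X : Type) [TopologicalSpace X] : Prop :=
  ∀ (A : Set X), ∀ x ∈ closure A, ∃ B ⊆ A, B.Countable ∧ x ∈ closure B

lemma solv : IsSolvable G := by
  let S1 : Subgroup G :=
    { carrier := {g | g.κ = 1}
      one_mem' := rfl
      mul_mem' := fun {a b} (ha : _ = _) (hb : _ = _) => by simp [ha, hb]
      inv_mem' := fun {a} (ha : _ = _) => by simp [ha] }
  let S2 : Subgroup G :=
    { carrier := {g | g.v = 0 ∧ g.κ = 1}
      one_mem' := ⟨rfl, rfl⟩
      mul_mem' := fun {a b} (ha : _ ∧ _) (hb : _ ∧ _) => by simp [ha, hb]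
      inv_mem' := fun {a} (ha : _ ∧ _) => by simp [ha] }
  have h1 : derivedSeries G 1 ≤ S1 := Subgroup.commutator_le.2 fun x _ y _ =>
    show _ = _ by simp [commutatorElement_def]
  have h2 : derivedSeries G 2 ≤ S2 := Subgroup.commutator_le.2 fun x hx y hy =>
    show _ ∧ _ by simp [commutatorElement_def, show x.κ = 1 from h1 hx, show y.κ = 1 from h1 hy]
  refine ⟨3, eq_bot_iff.2 (Subgroup.commutator_le.2 fun x hx y hy => ?_)⟩
  rw [Subgroup.mem_bot, commutatorElement_eq_one_iff_mul_comm]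
  obtain ⟨a1, a2⟩ := h2 hx
  obtain ⟨a3, a4⟩ := h2 hy
  exact ex (by simp [a1, a2, a3, a4, add_comm]) (by simp [a1, a3]) (mul_comm _ _)

lemma sepG {x : G} (h : ∀ F, x ∈ Nb F) : x = 1 := by
  obtain ⟨h1, h2, h3⟩ := toP.1 (show Tendsto (fun _ : ℕ => x) ⊤ P from fun U ⟨F, hF⟩ =>
    mem_map.2 (univ_mem' fun _ => hF (h F)))
  refine ex (fun μ y => (h3 μ y).exists.elim fun _ => id) (h1.exists.elim fun _ => id) ?_
  by_contra k
  obtain ⟨y, hy⟩ := cD (r := x.κ - 1) (fun e => k (Units.ext (sub_eq_zero.1 e))) c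
  exact c0 (by rw [← hy, sub_smul, one_smul, sub_eq_zero]; exact (h2 y).exists.elim fun _ => id)

theorem result : ∃ (G : Type) (_ : Group G) (_ : TopologicalSpace G), IsTopologicalGroup G ∧
    T2Space G ∧ TotallyMinimal G ∧ IsSolvable G ∧ CT G ∧ ¬ TopologicalSpace.MetrizableSpace G := by
  classical
  obtain ⟨τ, t1, t2⟩ := top
  have cl (A : Set G) (x : G) : x ∈ closure A ↔ ∀ F, ∃ g ∈ A, x⁻¹ * g ∈ Nb F := by
    rw [mem_closure_iff_nhds, ← map_mul_left_nhds_one, t2]
    refine ⟨fun h F => ?_, fun h U ⟨F, hF⟩ => ?_⟩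
    · obtain ⟨g, h1, h2⟩ := h {g | x⁻¹ * g ∈ Nb F} ⟨F, fun g hg => by simpa using hg⟩
      exact ⟨g, h2, h1⟩
    · obtain ⟨g, h1, h2⟩ := h F
      exact ⟨g, by simpa using hF h2, h1⟩
  have s2 : T2Space G := IsTopologicalGroup.t2Space_of_one_sep fun x hx => by
    obtain ⟨F, hF⟩ := not_forall.1 (mt sepG hx)
    exact ⟨_, t2 ▸ ⟨F, subset_rfl⟩, hF⟩
  refine ⟨G, inferInstance, τ, t1, s2, fun N _ _ σ a1 a2 a3 => ?_, solv, fun A x hx => ?_,
    fun _ => ?_⟩
  · have h1 := (QuotientGroup.nhds_eq N 1).symm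
    rw [t2] at h1
    have h2 := _root_.nhds_mono (a := 1) a3
    exact IsTopologicalGroup.ext a1 (QuotientGroup.instIsTopologicalGroup N) (le_antisymm
      ((@C.opn _ _ (QuotientGroup.mk' N) σ a1 a2 (h1.le.trans h2) (QuotientGroup.mk'_surjective N)).trans h1.le) h2)
  · choose γ h1 h2 using (cl A x).1 hx
    obtain ⟨J, j1, j2, j3⟩ := Pool.Agent.Lib.helper23.close_off (Q := Unit)
      (({0} : Set R) ×ˢ (univ : Set C)) ((countable_singleton _).prod countable_univ)
      (fun F _ _ => {μ | (x⁻¹ * γ F).a μ ≠ 0} ×ˢ univ)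
      fun F _ _ => (x⁻¹ * γ F).hf.countable.prod countable_univ
    haveI := j1.to_subtype
    refine ⟨range fun t : Finset J => γ (t.map (Embedding.subtype _)), range_subset_iff.2
      fun _ => h1 _, countable_range _, (cl _ x).2 fun F => ?_⟩
    let E := F.filter (· ∈ J) ∪ F.image fun p => (0, p.2)
    have e1 : ∀ p ∈ E, p ∈ J := fun p hp => by
      rcases Finset.mem_union.1 hp with h | h
      · exact (Finset.mem_filter.1 h).2
      · obtain ⟨q, -, rfl⟩ := Finset.mem_image.1 h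
        exact j2 ⟨rfl, trivial⟩
    refine ⟨γ E, ⟨E.subtype _, congrArg γ (Finset.subtype_map_of_mem e1)⟩, (h2 E).1,
      fun p hp => ⟨((h2 E).2 (0, p.2) (Finset.mem_union_right _
        (Finset.mem_image_of_mem _ hp))).1, ?_⟩⟩
    by_cases k : p ∈ J
    · exact ((h2 E).2 p (Finset.mem_union_left _ (Finset.mem_filter.2 ⟨hp, k⟩))).2
    · by_contra k'
      exact k (j3 E E () e1 e1 ⟨fun e => k' (congrFun e _), trivial⟩)
  · obtain ⟨U, hU⟩ := (𝓝 (1 : G)).exists_antitone_basis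
    choose F hF using fun n => (t2 ▸ hU.mem n : U n ∈ P)
    haveI := unc
    obtain ⟨μ, hμ⟩ : ∃ μ, μ ∉ ⋃ n, Prod.fst '' (F n : Set (R × C)) := by
      by_contra! h
      exact not_countable_univ ((countable_iUnion fun n =>
        ((F n).finite_toSet.image _).countable).mono fun μ _ => h μ)
    have c1 : c + c = -c := by
      rw [← add_eq_zero_iff_eq_neg, ← c3, show (3 : R) = 1 + 1 + 1 by norm_num]
      simp [add_smul]
    have hb : Rel fun _ y => (if y = c then 1 else 0) + if y = -c then 1 else 0 := fun _ y => by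
      simp only [add_eq_right, sub_eq_iff_eq_add, c1, neg_add_cancel, ← eq_sub_iff_add_eq,
        show -c - c = c by rw [← c1]; simpa using neg_eq_iff_eq_neg.2 c1]
      split_ifs <;> decide
    have := congrArg (fun g => g.a μ c) (sepG (x := res hb {μ}) fun E => by
      obtain ⟨n, hn⟩ := hU.mem_iff.1 (t2 ▸ ⟨E, subset_rfl⟩ : Nb E ∈ 𝓝 1)
      refine hn (hF n ⟨rfl, fun p hp => ⟨one_smul _ _, ?_⟩⟩)
      simp [res, show p.1 ≠ μ from fun e => hμ (mem_iUnion.2 ⟨n, p, hp, e⟩)])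
    simp [res, show c ≠ -c from fun e => c0 (by simpa [← e] using c1)] at this

end Pool.Agent.Results.MP_a4feb0_gt.Counter
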